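import Pool.Agent.Helper85.RP.Near
import Pool.Agent.Helper85.AE.Tup

/-! Prime tuples whose shifts are members of families of integers with nearly minimal energy, indexed by arbitrary types. -/

set_option autoImplicit false

namespace Pool.Agent.Helper85.RP
open Finset
open Pool.Agent.W93.TD (HLs)
open Pool.Agent.TH935.GF (En)

theorem type_tuples (k : ℕ) (hk : 1 ≤ k) (h C : Fin k → ℕ) (B U : ℕ) (ε : ℝ) (hε : 0 < ε) :
    ∃ N₀ : ℕ, ∀ X : ℕ, N₀ ≤ X → ∀ (ι : Fin k → Type) [∀ i, Fintype (ι i)] (v : ∀ i, ι i → ℤ),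
      (∀ i a, v i a ≤ B * X) →
      (∀ i, (En (h i) (v i) : ℝ) * X ≤ Real.log X ^ C i * (Fintype.card (ι i) : ℝ) ^ (2 * h i)) →
      ∀ S : Finset (∀ i, ι i), (∀ m ∈ S, (∀ i, 0 ≤ v i (m i)) ∧ ¬ HLs ε U X (fun i => (v i (m i)).toNat)) →
      (S.card : ℝ) ≤ (∏ i, (Fintype.card (ι i) : ℝ)) / Real.log X ^ U := by
  classical
  obtain ⟨N₀, h0⟩ := Pool.Agent.Helper85.AE.fam_tuples k hk h (fun i => C i + 2 * h i * U) B U ε hε
  obtain ⟨n1, hn1⟩ := Pool.Agent.Helper85.AE.ev_log 1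
  refine ⟨N₀ + n1 + 3, fun X hX ι _ v hv hE S hS => ?_⟩
  obtain ⟨L, hL⟩ : ∃ L, L = Real.log (X : ℝ) := ⟨_, rfl⟩
  have hL1 : 1 ≤ L := by rw [hL]; exact hn1 X (by omega)
  have hL0 : 0 < L := by linarith
  rw [← hL] at hE ⊢
  -- the members with nonnegative values
  have hScard : S.card ≤ ∏ i, Fintype.card {a : ι i // 0 ≤ v i a} := by
    rw [← Fintype.card_pi, ← card_univ]
    rw [← Finset.card_attach]
    apply card_le_card_of_injOn (fun m => fun i => ⟨m.1 i, (hS m.1 m.2).1 i⟩)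
    · intro m _
      exact mem_coe.2 (mem_univ _)
    · intro m _ m' _ hmm
      apply Subtype.ext
      funext i
      exact congrArg Subtype.val (congrFun hmm i)
  have hsub : ∀ i, (Fintype.card {a : ι i // 0 ≤ v i a} : ℝ) ≤ Fintype.card (ι i) := fun i => by
    exact_mod_cast Fintype.card_subtype_le _
  by_cases hsm : ∃ i, (Fintype.card {a : ι i // 0 ≤ v i a} : ℝ) * L ^ U ≤ Fintype.card (ι i)
  · obtain ⟨i, hi⟩ := hsm
    rw [le_div_iff₀ (by positivity)]
    calc (S.card : ℝ) * L ^ U ≤ (∏ j, (Fintype.card {a : ι j // 0 ≤ v j a} : ℝ)) * L ^ U := by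
          apply mul_le_mul_of_nonneg_right _ (by positivity)
          exact_mod_cast hScard
      _ = ((Fintype.card {a : ι i // 0 ≤ v i a} : ℝ) * L ^ U) * ∏ j ∈ univ.erase i, (Fintype.card {a : ι j // 0 ≤ v j a} : ℝ) := by
          rw [← mul_prod_erase univ _ (mem_univ i)]
          ring
      _ ≤ (Fintype.card (ι i) : ℝ) * ∏ j ∈ univ.erase i, (Fintype.card (ι j) : ℝ) := by
          apply mul_le_mul hi _ (prod_nonneg fun _ _ => Nat.cast_nonneg _) (Nat.cast_nonneg _)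
          exact prod_le_prod (fun _ _ => Nat.cast_nonneg _) fun j _ => hsub j
      _ = _ := mul_prod_erase univ (fun i => (Fintype.card (ι i) : ℝ)) (mem_univ i)
  push Not at hsm
  have hne : ∀ i, Nonempty {a : ι i // 0 ≤ v i a} := by
    intro i
    have h1 := hsm i
    by_contra hcon
    rw [not_nonempty_iff] at hcon
    have h2 : Fintype.card {a : ι i // 0 ≤ v i a} = 0 := Fintype.card_eq_zero
    rw [h2, Nat.cast_zero, zero_mul] at h1
    exact absurd h1 (not_lt.2 (Nat.cast_nonneg _))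
  choose e g hg1 hg2 hg3 hen using fun i => enum_type (fun a : {a : ι i // 0 ≤ v i a} => v i a.1) (h i)
  have hkey := h0 X (by omega) (fun i => Fintype.card {a : ι i // 0 ≤ v i a}) (fun i m => (v i (e i m).1).toNat)
    (fun i => Fintype.card_pos) (fun i m _ => by
      have h1 := hv i (e i m).1
      have h2 : (((v i (e i m).1).toNat : ℕ) : ℤ) ≤ ((B * X : ℕ) : ℤ) := by
        rw [Int.toNat_of_nonneg (e i m).2]
        push_cast
        exact h1
      exact_mod_cast h2) (fun i => by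
      have h1 : (fun m => (((v i (e i m).1).toNat : ℕ) : ℤ)) = fun m => v i (e i m).1 := by
        funext m
        exact Int.toNat_of_nonneg (e i m).2
      rw [h1, ← hL]
      have h2 : En (h i) (fun a : {a : ι i // 0 ≤ v i a} => v i a.1) ≤ En (h i) (v i) :=
        Pool.Agent.Helper85.AE.En_mono (h i) _ _ (fun a : {a : ι i // 0 ≤ v i a} => a.1) Subtype.val_injective (fun _ => rfl)
      calc _ ≤ (En (h i) (v i) : ℝ) * X := by
            apply mul_le_mul_of_nonneg_right _ (Nat.cast_nonneg _)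
            exact_mod_cast (hen i).trans h2
        _ ≤ L ^ C i * (Fintype.card (ι i) : ℝ) ^ (2 * h i) := hE i
        _ ≤ L ^ C i * ((Fintype.card {a : ι i // 0 ≤ v i a} : ℝ) * L ^ U) ^ (2 * h i) := by
            apply mul_le_mul_of_nonneg_left _ (by positivity)
            exact pow_le_pow_left₀ (Nat.cast_nonneg _) (hsm i).le _
        _ = _ := by
            rw [mul_pow, ← pow_mul, pow_add, show U * (2 * h i) = 2 * h i * U by ring]
            ring)
  rw [← hL] at hkey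
  have h3 : (S.card : ℝ) ≤ (((Fintype.piFinset (fun i => Icc 1 (Fintype.card {a : ι i // 0 ≤ v i a}))).filter
      (fun m => ¬ HLs ε U X (fun i => (v i (e i (m i)).1).toNat))).card : ℝ) := by
    apply Nat.cast_le.2
    rw [← Finset.card_attach]
    apply card_le_card_of_injOn (fun m => fun i => g i ⟨m.1 i, (hS m.1 m.2).1 i⟩)
    · intro m _
      rw [mem_coe, mem_filter, Fintype.mem_piFinset]
      refine ⟨fun i => hg1 i _, ?_⟩
      simp only [hg2]
      exact (hS m.1 m.2).2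
    · intro m _ m' _ hmm
      apply Subtype.ext
      funext i
      have h4 := congrArg (e i) (congrFun hmm i)
      simp only [hg2] at h4
      exact congrArg Subtype.val h4
  refine h3.trans (hkey.trans ?_)
  apply div_le_div_of_nonneg_right _ (by positivity)
  exact prod_le_prod (fun _ _ => Nat.cast_nonneg _) fun j _ => hsub j

lemma alg (L P : ℝ) (hL : 0 < L) (T k U : ℕ) :
    (5 * L ^ T) ^ k * (P / L ^ (U + k * T + 1)) = (5 ^ k / L) * (P / L ^ U) := by
  have h1 : L ^ (U + k * T + 1) = L ^ U * (L ^ T) ^ k * L := by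
    rw [pow_add, pow_add, pow_one, ← pow_mul, mul_comm T k]
  have h2 : (L ^ T) ^ k ≠ 0 := by positivity
  obtain ⟨Y, hY⟩ : ∃ Y, Y = (L ^ T) ^ k := ⟨_, rfl⟩
  obtain ⟨Z, hZ⟩ : ∃ Z, Z = L ^ U := ⟨_, rfl⟩
  have h3 : Z ≠ 0 := by rw [hZ]; positivity
  rw [h1, mul_pow, ← hY, ← hZ]
  rw [← hY] at h2
  field_simp

open Classical in
/-- prime tuples whose shifts are near the values of real polynomials in independent variables -/
theorem near_tuples (k : ℕ) (hk : 1 ≤ k) (n d : Fin k → ℕ) (hd : ∀ i, 1 ≤ d i) (Φ : ∀ i, MvPolynomial (Fin (n i)) ℝ)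
    (hΦ : ∀ i, (Φ i).IsHomogeneous (d i)) (hΦ0 : ∀ i, Φ i ≠ 0) (B K T U : ℕ) (ε : ℝ) (hε : 0 < ε) :
    ∃ X₀ : ℕ, ∀ X : ℕ, X₀ ≤ X → ∀ N : Fin k → ℕ, (∀ i, (X : ℝ) ≤ Real.log X ^ K * (N i : ℝ) ^ d i) →
      ∀ G : ∀ i, MvPolynomial (Fin (n i)) ℝ, (∀ i, (G i).totalDegree < d i) →
      (∀ i, ∀ x ∈ box (n i) (N i), |MvPolynomial.eval (fun j => (x j : ℝ)) (Φ i + G i)| ≤ B * X) →
      (((Fintype.piFinset (fun i => box (n i) (N i))).filter (fun x => ∃ a : Fin k → ℕ,
        (∀ i, |(a i : ℝ) - MvPolynomial.eval (fun j => (x i j : ℝ)) (Φ i + G i)| ≤ Real.log X ^ T) ∧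
        ¬ HLs ε U X a)).card : ℝ) ≤ (∏ i, ((box (n i) (N i)).card : ℝ)) / Real.log X ^ U := by
  choose h hh C hC hen using fun i => energy_box (n i) (d i) (hd i) (Φ i) (hΦ i) (hΦ0 i)
  obtain ⟨U', hU'⟩ : ∃ U' : ℕ, U' = U + k * T + 1 := ⟨_, rfl⟩
  obtain ⟨N₀, h0⟩ := type_tuples k hk h (fun _ => K + 1) (B + 1) U' ε hε
  obtain ⟨n1, hn1⟩ := Pool.Agent.Helper85.AE.ev_log (5 ^ k + ∑ i, C i)
  obtain ⟨n2, hn2⟩ := Pool.Agent.Helper85.AE.ev_pow 1 (by norm_num) (T + 1) 1
  refine ⟨N₀ + n1 + n2 + 3, fun X hX N hN G hG hb => ?_⟩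
  have hX0 : (0 : ℝ) < X := by exact_mod_cast (by omega : 0 < X)
  have hL := hn1 X (by omega)
  have hLp := hn2 X (by omega)
  rw [one_mul, Real.rpow_one] at hLp
  obtain ⟨L, hLd⟩ : ∃ L, L = Real.log (X : ℝ) := ⟨_, rfl⟩
  rw [← hLd] at hL hLp hN ⊢
  have hCs : ∀ i, C i ≤ ∑ i, C i := fun i => single_le_sum (fun j _ => (hC j).le) (mem_univ i)
  have hCp : 0 ≤ ∑ i, C i := sum_nonneg fun i _ => (hC i).le
  have h5k : (5 : ℝ) ≤ 5 ^ k := by
    calc (5 : ℝ) = 5 ^ 1 := (pow_one _).symm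
      _ ≤ _ := pow_le_pow_right₀ (by norm_num) hk
  have hL5 : 5 ^ k ≤ L := by linarith
  have hL1 : 5 ≤ L := by linarith
  have hL0 : 0 < L := by linarith
  obtain ⟨F, hF⟩ : ∃ F : ∀ i, (Fin (n i) → ℤ) → ℝ, ∀ i x, F i x = MvPolynomial.eval (fun j => (x j : ℝ)) (Φ i + G i) :=
    ⟨_, fun _ _ => rfl⟩
  simp only [← hF] at hb ⊢
  obtain ⟨J, hJ⟩ : ∃ J : ℕ, J = ⌊L ^ T⌋₊ + 1 := ⟨_, rfl⟩
  have hLT : 1 ≤ L ^ T := one_le_pow₀ (by linarith)
  have hJ1 : (J : ℝ) ≤ L ^ T + 1 := by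
    rw [hJ]; push_cast
    linarith [Nat.floor_le (by linarith : 0 ≤ L ^ T)]
  have hJ2 : L ^ T < J := by rw [hJ]; push_cast; exact Nat.lt_floor_add_one _
  have hLT2 : L ^ T + 2 ≤ X := by
    have : L ^ (T + 1) = L ^ T * L := pow_succ _ _
    nlinarith
  have hNi : ∀ i, 1 ≤ N i := by
    intro i
    by_contra hcon
    have h1 := hN i
    rw [show N i = 0 by omega, Nat.cast_zero, zero_pow (by have := hd i; omega), mul_zero] at h1
    linarith
  have hone : ∀ j ∈ Fintype.piFinset (fun _ : Fin k => Icc (-(J : ℤ)) J),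
      (((Fintype.piFinset (fun i => box (n i) (N i))).filter (fun x => (∀ i, 0 ≤ ⌊F i (x i)⌋ + j i) ∧
        ¬ HLs ε U' X (fun i => (⌊F i (x i)⌋ + j i).toNat))).card : ℝ) ≤
        (∏ i, ((box (n i) (N i)).card : ℝ)) / L ^ U' := by
    intro j hj
    rw [Fintype.mem_piFinset] at hj
    have hev : ∀ i (x : Fin (n i) → ℤ), ⌊MvPolynomial.eval (fun l => (x l : ℝ)) (Φ i + (G i + MvPolynomial.C (j i : ℝ)))⌋ =
        ⌊F i x⌋ + j i := by
      intro i x
      rw [← add_assoc, map_add, MvPolynomial.eval_C, ← hF, Int.floor_add_intCast]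
    have hG' : ∀ i, (G i + MvPolynomial.C (j i : ℝ)).totalDegree < d i := fun i =>
      (MvPolynomial.totalDegree_add _ _).trans_lt (max_lt (hG i) (by
        rw [MvPolynomial.totalDegree_C]; have := hd i; omega))
    have hb' : ∀ i (x : {x // x ∈ box (n i) (N i)}), ⌊F i x.1⌋ + j i ≤ ((B + 1 : ℕ) : ℤ) * X := by
      intro i x
      have e1 := (abs_le.1 (hb i x.1 x.2)).2
      have e3 := Int.floor_le (F i x.1)
      have e5 : (j i : ℝ) ≤ J := by exact_mod_cast (mem_Icc.1 (hj i)).2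
      have e2 : ((⌊F i x.1⌋ + j i : ℤ) : ℝ) ≤ (((B + 1 : ℕ) : ℤ) * X : ℤ) := by
        push_cast
        linarith
      exact_mod_cast e2
    have h2 := h0 X (by omega) (fun i => {x // x ∈ box (n i) (N i)}) (fun i x => ⌊F i x.1⌋ + j i) hb' (fun i => by
      have h3 := hen i (G i + MvPolynomial.C (j i : ℝ)) (hG' i) (N i) (hNi i)
      simp only [hev] at h3
      rw [← hLd, Fintype.card_coe]
      obtain ⟨E, hE⟩ : ∃ E : ℝ, E = (En (h i) (fun x : {x // x ∈ box (n i) (N i)} => ⌊F i x.1⌋ + j i) : ℝ) := ⟨_, rfl⟩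
      have hE0 : 0 ≤ E := by rw [hE]; positivity
      rw [← hE] at h3 ⊢
      calc E * X ≤ E * (L ^ K * (N i : ℝ) ^ d i) := mul_le_mul_of_nonneg_left (hN i) hE0
        _ = L ^ K * (E * (N i : ℝ) ^ d i) := by ring
        _ ≤ L ^ K * (C i * ((box (n i) (N i)).card : ℝ) ^ (2 * h i)) := mul_le_mul_of_nonneg_left h3 (by positivity)
        _ ≤ L ^ K * (L * ((box (n i) (N i)).card : ℝ) ^ (2 * h i)) := by
            apply mul_le_mul_of_nonneg_left _ (by positivity)
            apply mul_le_mul_of_nonneg_right _ (by positivity)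
            linarith [hCs i]
        _ = _ := by ring)
      (univ.filter (fun m : (∀ i, {x // x ∈ box (n i) (N i)}) => (∀ i, 0 ≤ ⌊F i (m i).1⌋ + j i) ∧
        ¬ HLs ε U' X (fun i => (⌊F i (m i).1⌋ + j i).toNat))) (fun m hm => (mem_filter.1 hm).2)
    rw [← hLd] at h2
    simp only [Fintype.card_coe] at h2
    refine le_trans (Nat.cast_le.2 ?_) h2
    rw [← Finset.card_attach]
    apply card_le_card_of_injOn (fun x => fun i => ⟨x.1 i, Fintype.mem_piFinset.1 (mem_filter.1 x.2).1 i⟩)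
    · intro x _
      rw [mem_coe, mem_filter]
      exact ⟨mem_univ _, (mem_filter.1 x.2).2⟩
    · intro x _ y _ hxy
      apply Subtype.ext
      funext i
      exact congrArg Subtype.val (congrFun hxy i)
  have hsub : (Fintype.piFinset (fun i => box (n i) (N i))).filter (fun x => ∃ a : Fin k → ℕ,
        (∀ i, |(a i : ℝ) - F i (x i)| ≤ L ^ T) ∧ ¬ HLs ε U X a) ⊆
      (Fintype.piFinset (fun _ : Fin k => Icc (-(J : ℤ)) J)).biUnion (fun j =>
        (Fintype.piFinset (fun i => box (n i) (N i))).filter (fun x => (∀ i, 0 ≤ ⌊F i (x i)⌋ + j i) ∧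
        ¬ HLs ε U' X (fun i => (⌊F i (x i)⌋ + j i).toNat))) := by
    intro x hx
    rw [mem_filter] at hx
    obtain ⟨hx1, a, ha, hHL⟩ := hx
    rw [mem_biUnion]
    refine ⟨fun i => (a i : ℤ) - ⌊F i (x i)⌋, ?_, ?_⟩
    · rw [Fintype.mem_piFinset]
      intro i
      have hb := ha i
      have e3 := Int.floor_le (F i (x i))
      have e4 := Int.lt_floor_add_one (F i (x i))
      rw [abs_le] at hb
      have e5 : (((a i : ℤ) : ℝ)) - ⌊F i (x i)⌋ < J + 1 := by push_cast; linarith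
      have e6 : -(J : ℝ) < ((a i : ℤ) : ℝ) - ⌊F i (x i)⌋ := by push_cast; linarith
      have e7 : (a i : ℤ) - ⌊F i (x i)⌋ < (J : ℤ) + 1 := by exact_mod_cast e5
      have e8 : -(J : ℤ) < (a i : ℤ) - ⌊F i (x i)⌋ := by exact_mod_cast e6
      rw [mem_Icc]
      omega
    · rw [mem_filter]
      have e9 : ∀ i, ⌊F i (x i)⌋ + ((a i : ℤ) - ⌊F i (x i)⌋) = a i := fun i => by ring
      refine ⟨hx1, fun i => by rw [e9]; exact Nat.cast_nonneg _, ?_⟩
      simp only [e9, Int.toNat_natCast]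
      rintro ⟨S, s1, s2, s3⟩
      refine hHL ⟨S, s1, s2.trans ?_, s3⟩
      rw [← hLd]
      apply div_le_div_of_nonneg_left (Nat.cast_nonneg _) (by positivity)
      exact pow_le_pow_right₀ (by linarith) (by omega)
  have hP0 : 0 ≤ ∏ i, ((box (n i) (N i)).card : ℝ) := prod_nonneg fun _ _ => Nat.cast_nonneg _
  calc _ ≤ ∑ j ∈ Fintype.piFinset (fun _ : Fin k => Icc (-(J : ℤ)) J),
        (((Fintype.piFinset (fun i => box (n i) (N i))).filter (fun x => (∀ i, 0 ≤ ⌊F i (x i)⌋ + j i) ∧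
        ¬ HLs ε U' X (fun i => (⌊F i (x i)⌋ + j i).toNat))).card : ℝ) := by
        exact_mod_cast (card_le_card hsub).trans card_biUnion_le
    _ ≤ ∑ _j ∈ Fintype.piFinset (fun _ : Fin k => Icc (-(J : ℤ)) J), (∏ i, ((box (n i) (N i)).card : ℝ)) / L ^ U' :=
        sum_le_sum hone
    _ = (2 * J + 1) ^ k * ((∏ i, ((box (n i) (N i)).card : ℝ)) / L ^ U') := by
        rw [sum_const, Fintype.card_piFinset_const, Int.card_Icc, nsmul_eq_mul]
        congr 1
        have : ((J : ℤ) + 1 - -(J : ℤ)).toNat = 2 * J + 1 := by omega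
        rw [this]; push_cast; ring
    _ ≤ (5 * L ^ T) ^ k * ((∏ i, ((box (n i) (N i)).card : ℝ)) / L ^ U') := by
        apply mul_le_mul_of_nonneg_right _ (div_nonneg hP0 (by positivity))
        exact pow_le_pow_left₀ (by positivity) (by linarith) _
    _ = (5 ^ k / L) * ((∏ i, ((box (n i) (N i)).card : ℝ)) / L ^ U) := by
        rw [hU']
        exact alg L _ hL0 T k U
    _ ≤ 1 * ((∏ i, ((box (n i) (N i)).card : ℝ)) / L ^ U) := by
        apply mul_le_mul_of_nonneg_right _ (div_nonneg hP0 (by positivity))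
        rw [div_le_one hL0]
        exact hL5
    _ = _ := one_mul _

end Pool.Agent.Helper85.RP
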